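import Pool.Agent.H20.HE.StmG

/-! A basis of a rank two module of vectors of polynomials over a field `K`, independent at every point
over an extension of `K` and at infinity. -/

set_option autoImplicit false

namespace Pool.Agent.H55.HE

open Polynomial

variable {K : Type} [Field K] {n : ℕ}

/-- `a`, `b` are combinations of `a'`, `b'` over the field of rational functions -/
def Sp (a b a' b' : Fin n → K[X]) : Prop :=
  ∃ (D : K[X]) (r : Fin 4 → K[X]), D ≠ 0 ∧ (∀ i, D * a i = r 0 * a' i + r 1 * b' i) ∧
    (∀ i, D * b i = r 2 * a' i + r 3 * b' i)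

lemma Sp.swap {a b a' b' : Fin n → K[X]} (h : Sp a b a' b') : Sp a b b' a' := by
  obtain ⟨D, r, hD, h1, h2⟩ := h
  refine ⟨D, ![r 1, r 0, r 3, r 2], hD, fun i => ?_, fun i => ?_⟩
  · simp [h1 i]; ring
  · simp [h2 i]; ring

lemma Sp.left {a b a' b' c : Fin n → K[X]} (h : Sp a b a' b') (e p q : K[X]) (he : e ≠ 0)
    (hc : ∀ i, e * a' i = p * c i + q * b' i) : Sp a b c b' := by
  obtain ⟨D, r, hD, h1, h2⟩ := h
  refine ⟨e * D, ![r 0 * p, r 0 * q + e * r 1, r 2 * p, r 2 * q + e * r 3], mul_ne_zero he hD,
    fun i => ?_, fun i => ?_⟩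
  · simp
    linear_combination e * h1 i + r 0 * hc i
  · simp
    linear_combination e * h2 i + r 2 * hc i

lemma Sp.minor {a b a' b' : Fin n → K[X]} (h : Sp a b a' b') (hab : ∃ i j, a i * b j ≠ a j * b i) :
    ∃ i j, a' i * b' j - a' j * b' i ≠ 0 := by
  obtain ⟨D, r, hD, h1, h2⟩ := h
  obtain ⟨i, j, hij⟩ := hab
  refine ⟨i, j, fun hd => hij ?_⟩
  have h3 : D * D * (a i * b j - a j * b i) = 0 := by
    linear_combination (D * b j) * h1 i + (r 0 * a' i + r 1 * b' i) * h2 j -
      (D * b i) * h1 j - (r 0 * a' j + r 1 * b' j) * h2 i + (r 0 * r 3 - r 1 * r 2) * hd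
  rcases mul_eq_zero.1 h3 with h4 | h4
  · exact absurd h4 (mul_ne_zero hD hD)
  · exact sub_eq_zero.1 h4

lemma Sp.indep {a b a' b' : Fin n → K[X]} (h : Sp a b a' b') (hab : ∃ i j, a i * b j ≠ a j * b i)
    (l m : K[X]) (h0 : ∀ i, l * a' i + m * b' i = 0) : l = 0 ∧ m = 0 := by
  obtain ⟨i, j, hd⟩ := h.minor hab
  constructor
  · have : l * (a' i * b' j - a' j * b' i) = 0 := by
      linear_combination b' j * h0 i - b' i * h0 j
    exact (mul_eq_zero.1 this).resolve_right hd
  · have : m * (a' i * b' j - a' j * b' i) = 0 := by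
      linear_combination a' i * h0 j - a' j * h0 i
    exact (mul_eq_zero.1 this).resolve_right hd

/-- the degree bounds with sum `s` are possible -/
def Q (a b : Fin n → K[X]) (s : ℕ) : Prop :=
  ∃ (α β : ℕ) (a' b' : Fin n → K[X]), α + β = s ∧ (∀ i, (a' i).natDegree ≤ α) ∧
    (∀ i, (b' i).natDegree ≤ β) ∧ Sp a b a' b'

/-- the degree of a factor -/
lemma degree_factor {π g f : K[X]} {d : ℕ} (hπ : 0 < π.natDegree) (hf : f = π * g)
    (hd : f.natDegree ≤ π.natDegree - 1 + d) : g.natDegree ≤ d - 1 ∧ (d = 0 → g = 0) := by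
  have hπ0 : π ≠ 0 := fun h => by
    rw [h, natDegree_zero] at hπ
    exact lt_irrefl _ hπ
  by_cases hg : g = 0
  · exact ⟨by simp [hg], fun _ => hg⟩
  · have := natDegree_mul hπ0 hg
    rw [← hf] at this
    exact ⟨by omega, fun h => by omega⟩

lemma natDegree_comb' {α β : ℕ} (hβ : β ≤ α) {f g : K[X]} (hf : f.natDegree ≤ α)
    (hg : g.natDegree ≤ β) (l m : K) : (C l * f + C m * X ^ (α - β) * g).natDegree ≤ α := by
  refine (natDegree_add_le _ _).trans (max_le ?_ ?_)
  · exact (natDegree_C_mul_le _ _).trans hf
  · refine natDegree_mul_le.trans ?_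
    have : (C m * X ^ (α - β) : K[X]).natDegree ≤ α - β := natDegree_C_mul_X_pow_le _ _
    omega

/-- a nonzero top coefficient is the only obstruction to a smaller degree -/
lemma natDegree_lt_of_coeff {d : ℕ} (hd : 0 < d) {f : K[X]} (h : f.natDegree ≤ d)
    (h0 : f.coeff d = 0) : f.natDegree < d := by
  rcases h.lt_or_eq with h | h
  · exact h
  · exfalso
    have : f.leadingCoeff = 0 := by rw [leadingCoeff, h, h0]
    rw [leadingCoeff_eq_zero] at this
    rw [this, natDegree_zero] at h
    omega

theorem basisG : Pool.Agent.H20.HE.S_basisG := by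
  intro K E _ _ _ n a b hab
  classical
  have hQ : ∃ s, Q a b s := by
    refine ⟨_, Finset.univ.sup (fun i => (a i).natDegree), Finset.univ.sup (fun i => (b i).natDegree),
      a, b, rfl, fun i => ?_, fun i => ?_, 1, ![1, 0, 0, 1], one_ne_zero, ?_, ?_⟩
    · exact Finset.le_sup (f := fun i => (a i).natDegree) (Finset.mem_univ i)
    · exact Finset.le_sup (f := fun i => (b i).natDegree) (Finset.mem_univ i)
    · intro i; simp
    · intro i; simp
  obtain ⟨α, β, a', b', hs, hα, hβ, hsp, hβα⟩ : ∃ (α β : ℕ) (a' b' : Fin n → K[X]),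
      α + β = Nat.find hQ ∧ (∀ i, (a' i).natDegree ≤ α) ∧ (∀ i, (b' i).natDegree ≤ β) ∧
        Sp a b a' b' ∧ β ≤ α := by
    obtain ⟨α, β, a', b', hs, hα, hβ, hsp⟩ := Nat.find_spec hQ
    rcases le_total β α with h | h
    · exact ⟨α, β, a', b', hs, hα, hβ, hsp, h⟩
    · exact ⟨β, α, b', a', by omega, hβ, hα, hsp.swap, h⟩
  have hmin : ∀ (α' β' : ℕ) (a'' b'' : Fin n → K[X]), (∀ i, (a'' i).natDegree ≤ α') →
      (∀ i, (b'' i).natDegree ≤ β') → Sp a b a'' b'' → α + β ≤ α' + β' := by
    intro α' β' a'' b'' h1 h2 h3
    rw [hs]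
    exact Nat.find_min' hQ ⟨α', β', a'', b'', rfl, h1, h2, h3⟩
  have hind := hsp.indep hab
  obtain ⟨D, r, hD, hr1, hr2⟩ := id hsp
  -- independence at infinity over `K`
  have hinf : ∀ l m : K, (∀ i, l * (a' i).coeff α + m * (b' i).coeff β = 0) → l = 0 ∧ m = 0 := by
    intro l m h0
    by_cases hl : l = 0
    · subst hl
      refine ⟨rfl, ?_⟩
      by_contra hm
      have hb : ∀ i, (b' i).coeff β = 0 := by
        intro i
        have := h0 i
        rw [zero_mul, zero_add] at this
        exact (mul_eq_zero.1 this).resolve_left hm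
      rcases Nat.eq_zero_or_pos β with hβ0 | hβ0
      · have : ∀ i, b' i = 0 := by
          intro i
          have h1 := hb i
          rw [hβ0] at h1
          have h2 : (b' i).natDegree ≤ 0 := hβ0 ▸ hβ i
          rw [eq_C_of_natDegree_le_zero h2, h1, C_0]
        have := (hind 0 1 (fun i => by simp [this i])).2
        exact one_ne_zero this
      · have hdeg : ∀ i, (b' i).natDegree ≤ β - 1 := by
          intro i
          have := natDegree_lt_of_coeff hβ0 (hβ i) (hb i)
          omega
        have := hmin α (β - 1) a' b' hα hdeg hsp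
        omega
    · exfalso
      have hco : ∀ i, (C l * a' i + C m * X ^ (α - β) * b' i).coeff α = 0 := by
        intro i
        rw [coeff_add, coeff_C_mul, mul_assoc, coeff_C_mul, coeff_X_pow_mul', if_pos (by omega)]
        have : α - (α - β) = β := by omega
        rw [this]
        exact h0 i
      rcases Nat.eq_zero_or_pos α with hα0 | hα0
      · have : ∀ i, C l * a' i + (C m * X ^ (α - β)) * b' i = 0 := by
          intro i
          have h1 := hco i
          have h2 := natDegree_comb' hβα (hα i) (hβ i) l m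
          rw [eq_C_of_natDegree_le_zero (h2.trans hα0.le)]
          rw [hα0] at h1
          rw [hα0, h1, C_0]
        have := (hind (C l) _ this).1
        exact hl (C_eq_zero.1 this)
      · have hdeg : ∀ i, (C l * a' i + C m * X ^ (α - β) * b' i).natDegree ≤ α - 1 := by
          intro i
          have := natDegree_lt_of_coeff hα0 (natDegree_comb' hβα (hα i) (hβ i) l m) (hco i)
          omega
        have h3 : Sp a b (fun i => C l * a' i + C m * X ^ (α - β) * b' i) b' := by
          refine hsp.left (C l) 1 (- C m * X ^ (α - β)) (fun h => hl (C_eq_zero.1 h)) (fun i => ?_)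
          ring
        have := hmin (α - 1) β _ b' hdeg hβ h3
        omega
  refine ⟨α, β, D, a', b', r, hβα, hD, hα, hβ, hr1, hr2, ?_, ?_⟩
  · -- independence at a point of the extension
    intro x l m h0
    by_contra hlm
    have hmin0 : ∀ i j, aeval x (a' i * b' j - a' j * b' i) = 0 := by
      intro i j
      rw [map_sub, map_mul, map_mul]
      have h1 : l * (aeval x (a' i) * aeval x (b' j) - aeval x (a' j) * aeval x (b' i)) = 0 := by
        linear_combination aeval x (b' j) * h0 i - aeval x (b' i) * h0 j
      have h2 : m * (aeval x (a' i) * aeval x (b' j) - aeval x (a' j) * aeval x (b' i)) = 0 := by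
        linear_combination aeval x (a' i) * h0 j - aeval x (a' j) * h0 i
      by_cases hl : l = 0
      · exact (mul_eq_zero.1 h2).resolve_left (fun hm => hlm ⟨hl, hm⟩)
      · exact (mul_eq_zero.1 h1).resolve_left hl
    obtain ⟨i0, j0, hM⟩ := hsp.minor hab
    have halg : IsAlgebraic K x := ⟨_, hM, hmin0 i0 j0⟩
    have hint : IsIntegral K x := halg.isIntegral
    obtain ⟨π, hπ⟩ : ∃ π, π = minpoly K x := ⟨_, rfl⟩
    have hirr : Irreducible π := by rw [hπ]; exact minpoly.irreducible hint
    have hπd : 0 < π.natDegree := by rw [hπ]; exact minpoly.natDegree_pos hint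
    have hπ0 : π ≠ 0 := hirr.ne_zero
    have hdvd : ∀ i j, π ∣ a' i * b' j - a' j * b' i := fun i j => by
      rw [hπ]
      exact minpoly.dvd K x (hmin0 i j)
    by_cases hall : ∀ i, π ∣ b' i
    · choose c hc using hall
      have hcd : ∀ i, (c i).natDegree ≤ β - 1 ∧ (β = 0 → c i = 0) := by
        intro i
        refine degree_factor hπd (hc i) ?_
        exact (hβ i).trans (by omega)
      rcases Nat.eq_zero_or_pos β with hβ0 | hβ0
      · have : ∀ i, b' i = 0 := fun i => by rw [hc i, (hcd i).2 hβ0, mul_zero]
        have := (hind 0 1 (fun i => by simp [this i])).2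
        exact one_ne_zero this
      · have h3 : Sp a b a' c := by
          refine (hsp.swap.left 1 π 0 one_ne_zero (fun i => ?_)).swap
          rw [hc i]; ring
        have := hmin α (β - 1) a' c hα (fun i => (hcd i).1) h3
        omega
    · push Not at hall
      obtain ⟨i1, hi1⟩ := hall
      have hp1 : b' i1 % π ≠ 0 := fun h => hi1 (EuclideanDomain.mod_eq_zero.1 h)
      have hdp : (b' i1 % π).natDegree ≤ π.natDegree - 1 := by
        have := natDegree_mod_lt (b' i1) hπd.ne'
        omega
      have hdq : (a' i1 % π).natDegree ≤ π.natDegree - 1 := by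
        have := natDegree_mod_lt (a' i1) hπd.ne'
        omega
      have hdiv : ∀ j, π ∣ (b' i1 % π) * a' j - (a' i1 % π) * b' j := by
        intro j
        have e1 : (b' i1 % π) = b' i1 - π * (b' i1 / π) :=
          eq_sub_of_add_eq' (EuclideanDomain.div_add_mod _ _)
        have e2 : (a' i1 % π) = a' i1 - π * (a' i1 / π) :=
          eq_sub_of_add_eq' (EuclideanDomain.div_add_mod _ _)
        have e3 : (b' i1 % π) * a' j - (a' i1 % π) * b' j =
            -(a' i1 * b' j - a' j * b' i1) - π * ((b' i1 / π) * a' j - (a' i1 / π) * b' j) := by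
          rw [e1, e2]; ring
        rw [e3]
        exact dvd_sub ((hdvd i1 j).neg_right) (Dvd.intro _ rfl)
      choose g hg using hdiv
      have hgd : ∀ j, (g j).natDegree ≤ α - 1 ∧ (α = 0 → g j = 0) := by
        intro j
        refine degree_factor hπd (hg j) ?_
        refine (natDegree_sub_le _ _).trans (max_le ?_ ?_)
        · exact natDegree_mul_le.trans (add_le_add hdp (hα j))
        · exact natDegree_mul_le.trans (add_le_add hdq ((hβ j).trans hβα))
      rcases Nat.eq_zero_or_pos α with hα0 | hα0
      · have h4 : ∀ j, (b' i1 % π) * a' j + (-(a' i1 % π)) * b' j = 0 := by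
          intro j
          have := hg j
          rw [(hgd j).2 hα0, mul_zero] at this
          linear_combination this
        exact hp1 (hind _ _ h4).1
      · have h3 : Sp a b g b' := by
          refine hsp.left (b' i1 % π) π (a' i1 % π) hp1 (fun j => ?_)
          linear_combination hg j
        have := hmin (α - 1) β g b' (fun j => (hgd j).1) hβ h3
        omega
  · -- independence at infinity over the extension
    intro l m h0
    by_contra hlm
    have hφ : Function.Injective (algebraMap K E) := (algebraMap K E).injective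
    have hmin0 : ∀ i j, (a' i).coeff α * (b' j).coeff β - (a' j).coeff α * (b' i).coeff β = 0 := by
      intro i j
      apply hφ
      rw [map_sub, map_mul, map_mul, map_zero]
      have h1 : l * (algebraMap K E ((a' i).coeff α) * algebraMap K E ((b' j).coeff β) -
          algebraMap K E ((a' j).coeff α) * algebraMap K E ((b' i).coeff β)) = 0 := by
        linear_combination algebraMap K E ((b' j).coeff β) * h0 i -
          algebraMap K E ((b' i).coeff β) * h0 j
      have h2 : m * (algebraMap K E ((a' i).coeff α) * algebraMap K E ((b' j).coeff β) -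
          algebraMap K E ((a' j).coeff α) * algebraMap K E ((b' i).coeff β)) = 0 := by
        linear_combination algebraMap K E ((a' i).coeff α) * h0 j -
          algebraMap K E ((a' j).coeff α) * h0 i
      by_cases hl : l = 0
      · exact (mul_eq_zero.1 h2).resolve_left (fun hm => hlm ⟨hl, hm⟩)
      · exact (mul_eq_zero.1 h1).resolve_left hl
    by_cases hall : ∀ i, (b' i).coeff β = 0
    · exact one_ne_zero (hinf 0 1 (fun i => by simp [hall i])).2
    · push Not at hall
      obtain ⟨i1, hi1⟩ := hall
      refine hi1 (hinf ((b' i1).coeff β) (-(a' i1).coeff α) (fun j => ?_)).1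
      linear_combination -(hmin0 i1 j)

end Pool.Agent.H55.HE
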